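import Mathlib
import Pool.Agent.Lib.MP_a30514_an.Defs
import Pool.Agent.Lib.MP_a30514_an.LeftMain

set_option autoImplicit false

namespace Pool.Agent.Results.MP_a30514_an.LeftNotProjective

open Pool.Agent.Lib.MP_a30514_an

/-- The Banach algebra `K(ℓ¹)` of compact operators on the complex Banach space `ℓ¹(ℕ)` is not
projective as a Banach left module over itself: there are a Banach left module `Y` and a morphism
`φ : Y → K(ℓ¹)` of Banach left modules with a bounded linear right inverse but no right inverse
that is a morphism of Banach left modules. -/
theorem result : ¬ (leftRegular (K EllOne)).IsProjective.{0, 0, 0} :=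
  not_left_projective_A1

end Pool.Agent.Results.MP_a30514_an.LeftNotProjective
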